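import Mathlib

/-!
# A left Bregman Chebyshev set that is not convex

For every `n ≥ 2` there are a Legendre function `f` on `ℝ^n` that is not supercoercive and a left
Chebyshev set `C ⊆ int dom f` that is not convex:
`f x = -log x₀ + (x₁² + ⋯ + x_{n-1}²) / 2` on `x₀ > 0` and `C = {x : 0 < x₀ ≤ cosh (x₁ / 2)}`.
-/

set_option autoImplicit false

open Set Filter Topology

namespace Pool.Agent.Results.MP_bd7f44_an.NonconvexChebyshev

/-- The effective domain of an extended real valued function. -/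
def dom {n : ℕ} (f : EuclideanSpace ℝ (Fin n) → EReal) : Set (EuclideanSpace ℝ (Fin n)) :=
  {x | f x ≠ ⊤}

/-- `f` is a Legendre function: it is proper, lower semicontinuous (closed epigraph), convex
(convex epigraph), essentially smooth (the interior of the domain is nonempty, `f` is differentiable
there, and the norm of the derivative tends to infinity along sequences of interior points that
converge to a boundary point of the domain) and essentially strictly convex (strictly convex on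
every convex subset of the set of the points at which `f` has a subgradient). -/
structure IsLegendre {n : ℕ} (f : EuclideanSpace ℝ (Fin n) → EReal) : Prop where
  ne_bot : ∀ x, f x ≠ ⊥
  lsc : IsClosed {p : EuclideanSpace ℝ (Fin n) × ℝ | f p.1 ≤ (p.2 : EReal)}
  convex : Convex ℝ {p : EuclideanSpace ℝ (Fin n) × ℝ | f p.1 ≤ (p.2 : EReal)}
  nonempty : (interior (dom f)).Nonempty
  diff : ∀ x ∈ interior (dom f), DifferentiableAt ℝ (fun y => (f y).toReal) x
  steep : ∀ (u : ℕ → EuclideanSpace ℝ (Fin n)) (x : EuclideanSpace ℝ (Fin n)),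
    (∀ k, u k ∈ interior (dom f)) → x ∈ frontier (dom f) → Tendsto u atTop (𝓝 x) →
      Tendsto (fun k => ‖fderiv ℝ (fun y => (f y).toReal) (u k)‖) atTop atTop
  strict : ∀ S : Set (EuclideanSpace ℝ (Fin n)), Convex ℝ S →
    (∀ x ∈ S, x ∈ dom f ∧ ∃ s : EuclideanSpace ℝ (Fin n) →L[ℝ] ℝ, ∀ y,
      f x + ((s (y - x) : ℝ) : EReal) ≤ f y) →
    StrictConvexOn ℝ S (fun y => (f y).toReal)

/-- `f` is supercoercive: `f x / ‖x‖ → +∞` as `‖x‖ → ∞`. -/
def Supercoercive {n : ℕ} (f : EuclideanSpace ℝ (Fin n) → EReal) : Prop :=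
  Tendsto (fun x => f x / ((‖x‖ : ℝ) : EReal)) (Bornology.cobounded (EuclideanSpace ℝ (Fin n)))
    (𝓝 ⊤)

/-- The Bregman distance `D(x, y) = f x - f y - ⟨∇ f y, x - y⟩` for `x` and `y` in the interior of
the domain of `f`. -/
noncomputable def bregman {n : ℕ} (f : EuclideanSpace ℝ (Fin n) → EReal)
    (x y : EuclideanSpace ℝ (Fin n)) : ℝ :=
  (f x).toReal - (f y).toReal - fderiv ℝ (fun z => (f z).toReal) y (x - y)

/-- `C` is left Chebyshev: for every `y` in the interior of the domain of `f` the function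
`x ↦ D(x, y)` has exactly one minimiser over `C`. -/
def LeftChebyshev {n : ℕ} (f : EuclideanSpace ℝ (Fin n) → EReal)
    (C : Set (EuclideanSpace ℝ (Fin n))) : Prop :=
  ∀ y ∈ interior (dom f), ∃! x, x ∈ C ∧ ∀ z ∈ C, bregman f x y ≤ bregman f z y

/-! ## The example -/

section Example

variable {m : ℕ}

/-- half of the sum of the squares of all coordinates but the first -/
noncomputable def q (x : EuclideanSpace ℝ (Fin (m + 2))) : ℝ := ∑ i : Fin (m + 1), (x i.succ) ^ 2 / 2

/-- the real valued function -/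
noncomputable def F (x : EuclideanSpace ℝ (Fin (m + 2))) : ℝ := -Real.log (x 0) + q x

open Classical in
/-- the Legendre function -/
noncomputable def f (x : EuclideanSpace ℝ (Fin (m + 2))) : EReal :=
  if 0 < x 0 then ((F x : ℝ) : EReal) else ⊤

/-- the nonconvex Chebyshev set -/
def C : Set (EuclideanSpace ℝ (Fin (m + 2))) := {x | 0 < x 0 ∧ x 0 ≤ Real.cosh (x 1 / 2)}

lemma f_pos {x : EuclideanSpace ℝ (Fin (m + 2))} (h : 0 < x 0) : f x = ((F x : ℝ) : EReal) :=
  if_pos h

lemma dom_f : dom (f (m := m)) = {x | 0 < x 0} := by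
  ext x
  simp only [dom, f, mem_ofPred_eq]
  split_ifs with h
  · simp [h]
  · simp [h]

lemma cont_coord (i : Fin (m + 2)) : Continuous fun x : EuclideanSpace ℝ (Fin (m + 2)) => x i := by
  fun_prop

lemma open_dom : IsOpen (dom (f (m := m))) := by
  rw [dom_f]
  exact isOpen_lt continuous_const (cont_coord 0)

lemma int_dom : interior (dom (f (m := m))) = {x | 0 < x 0} := by
  rw [open_dom.interior_eq, dom_f]

lemma q_cont : Continuous (q (m := m)) := by
  unfold q
  fun_prop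

/-- the derivative of `F` -/
noncomputable def dF (y : EuclideanSpace ℝ (Fin (m + 2))) :
    EuclideanSpace ℝ (Fin (m + 2)) →L[ℝ] ℝ :=
  (-(y 0)⁻¹) • (EuclideanSpace.proj (𝕜 := ℝ) (0 : Fin (m + 2))) +
    ∑ i : Fin (m + 1), (y i.succ) • (EuclideanSpace.proj (𝕜 := ℝ) (i.succ : Fin (m + 2)))

lemma hasF {y : EuclideanSpace ℝ (Fin (m + 2))} (h : 0 < y 0) : HasFDerivAt F (dF y) y := by
  have hc : ∀ i : Fin (m + 2), HasFDerivAt (fun x : EuclideanSpace ℝ (Fin (m + 2)) => x i)
      (EuclideanSpace.proj (𝕜 := ℝ) i) y := fun i =>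
    (EuclideanSpace.proj (𝕜 := ℝ) i).hasFDerivAt
  have h1 : HasFDerivAt (fun x : EuclideanSpace ℝ (Fin (m + 2)) => -Real.log (x 0))
      ((-(y 0)⁻¹) • (EuclideanSpace.proj (𝕜 := ℝ) (0 : Fin (m + 2)))) y := by
    have := ((hc 0).log h.ne').neg
    rw [neg_smul]
    exact this
  have h2 : HasFDerivAt (q (m := m))
      (∑ i : Fin (m + 1), (y i.succ) • (EuclideanSpace.proj (𝕜 := ℝ) (i.succ : Fin (m + 2)))) y := by
    unfold q
    refine HasFDerivAt.fun_sum fun i _ => ?_
    have := ((hc i.succ).pow 2).mul_const (1 / 2 : ℝ)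
    refine (this.congr_fderiv ?_).congr_of_eventuallyEq ?_
    · ext v
      simp
      ring
    · refine Eventually.of_forall fun x => ?_
      simp
      ring
  exact h1.add h2

lemma f_toReal_eq {y : EuclideanSpace ℝ (Fin (m + 2))} (h : 0 < y 0) :
    (fun x => (f x).toReal) =ᶠ[𝓝 y] F := by
  have : {x : EuclideanSpace ℝ (Fin (m + 2)) | 0 < x 0} ∈ 𝓝 y :=
    (isOpen_lt continuous_const (cont_coord 0)).mem_nhds h
  filter_upwards [this] with x hx
  rw [f_pos hx, EReal.toReal_coe]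

lemma hasf {y : EuclideanSpace ℝ (Fin (m + 2))} (h : 0 < y 0) :
    HasFDerivAt (fun x => (f x).toReal) (dF y) y :=
  (hasF h).congr_of_eventuallyEq (f_toReal_eq h)

lemma fderiv_f {y : EuclideanSpace ℝ (Fin (m + 2))} (h : 0 < y 0) :
    fderiv ℝ (fun x => (f x).toReal) y = dF y := (hasf h).fderiv

lemma dF_apply (y v : EuclideanSpace ℝ (Fin (m + 2))) :
    dF y v = -(y 0)⁻¹ * v 0 + ∑ i : Fin (m + 1), y i.succ * v i.succ := by
  simp [dF]

/-- the Bregman distance of the example -/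
lemma bregman_f {x y : EuclideanSpace ℝ (Fin (m + 2))} (hx : 0 < x 0) (hy : 0 < y 0) :
    bregman f x y = x 0 / y 0 - 1 - Real.log (x 0) + Real.log (y 0) +
      ∑ i : Fin (m + 1), (x i.succ - y i.succ) ^ 2 / 2 := by
  unfold bregman
  rw [fderiv_f hy, dF_apply, f_pos hx, f_pos hy, EReal.toReal_coe, EReal.toReal_coe]
  unfold F q
  simp only [PiLp.sub_apply]
  have h1 : ∑ i : Fin (m + 1), (x i.succ - y i.succ) ^ 2 / 2 =
      ∑ i : Fin (m + 1), (x i.succ) ^ 2 / 2 - ∑ i : Fin (m + 1), (y i.succ) ^ 2 / 2 -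
        ∑ i : Fin (m + 1), y i.succ * (x i.succ - y i.succ) := by
    rw [← Finset.sum_sub_distrib, ← Finset.sum_sub_distrib]
    exact Finset.sum_congr rfl fun i _ => by ring
  rw [h1]
  field_simp
  ring

lemma f_le_iff {x : EuclideanSpace ℝ (Fin (m + 2))} {r : ℝ} :
    f x ≤ (r : EReal) ↔ Real.exp (q x - r) ≤ x 0 := by
  by_cases h : 0 < x 0
  · rw [f_pos h, EReal.coe_le_coe_iff, ← Real.le_log_iff_exp_le h]
    unfold F
    constructor <;> intro h' <;> linarith
  · unfold f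
    rw [if_neg h]
    constructor
    · intro h'
      exact absurd (top_le_iff.1 h') (EReal.coe_ne_top r)
    · intro h'
      exact absurd (lt_of_lt_of_le (Real.exp_pos _) h') h

lemma q_mid {x y : EuclideanSpace ℝ (Fin (m + 2))} {a b : ℝ}
    (hab : a + b = 1) : q (a • x + b • y) =
      a * q x + b * q y - ∑ i : Fin (m + 1), a * b * (x i.succ - y i.succ) ^ 2 / 2 := by
  unfold q
  rw [Finset.mul_sum, Finset.mul_sum, ← Finset.sum_add_distrib, ← Finset.sum_sub_distrib]
  refine Finset.sum_congr rfl fun i _ => ?_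
  simp only [PiLp.add_apply, PiLp.smul_apply, smul_eq_mul]
  have : b = 1 - a := by linarith
  subst this
  ring

lemma epi_closed : IsClosed {p : EuclideanSpace ℝ (Fin (m + 2)) × ℝ | f p.1 ≤ (p.2 : EReal)} := by
  have : {p : EuclideanSpace ℝ (Fin (m + 2)) × ℝ | f p.1 ≤ (p.2 : EReal)} =
      {p | Real.exp (q p.1 - p.2) ≤ p.1 0} := by
    ext p
    exact f_le_iff
  rw [this]
  refine isClosed_le ?_ ?_
  · exact Real.continuous_exp.comp ((q_cont.comp continuous_fst).sub continuous_snd)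
  · exact (cont_coord 0).comp continuous_fst

lemma epi_convex : Convex ℝ {p : EuclideanSpace ℝ (Fin (m + 2)) × ℝ | f p.1 ≤ (p.2 : EReal)} := by
  intro p hp p' hp' a b ha hb hab
  have hp1 := f_le_iff.1 hp
  have hp2 := f_le_iff.1 hp'
  refine f_le_iff.2 ?_
  have h1 : q (a • p + b • p').1 - (a • p + b • p').2 ≤
      a * (q p.1 - p.2) + b * (q p'.1 - p'.2) := by
    rw [Prod.fst_add, Prod.smul_fst, Prod.smul_fst, q_mid hab]
    simp only [Prod.snd_add, Prod.smul_snd, smul_eq_mul]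
    have : 0 ≤ ∑ i : Fin (m + 1), a * b * (p.1 i.succ - p'.1 i.succ) ^ 2 / 2 :=
      Finset.sum_nonneg fun i _ => by positivity
    linarith
  have h2 := convexOn_exp.2 (mem_univ (q p.1 - p.2)) (mem_univ (q p'.1 - p'.2)) ha hb hab
  simp only [smul_eq_mul] at h2
  calc Real.exp (q (a • p + b • p').1 - (a • p + b • p').2)
      ≤ Real.exp (a * (q p.1 - p.2) + b * (q p'.1 - p'.2)) := Real.exp_le_exp.2 h1
    _ ≤ a * Real.exp (q p.1 - p.2) + b * Real.exp (q p'.1 - p'.2) := h2
    _ ≤ a * p.1 0 + b * p'.1 0 := by gcongr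
    _ = (a • p + b • p').1 0 := by simp

lemma F_strict : StrictConvexOn ℝ {x : EuclideanSpace ℝ (Fin (m + 2)) | 0 < x 0}
    (fun y => (f y).toReal) := by
  refine ⟨?_, ?_⟩
  · intro x hx y hy a b ha hb hab
    simp only [mem_ofPred_eq, PiLp.add_apply, PiLp.smul_apply, smul_eq_mul] at hx hy ⊢
    rcases ha.eq_or_lt with h | h
    · have : b = 1 := by linarith
      subst this
      rw [← h]
      simpa using hy
    · have := mul_pos h hx
      have := mul_nonneg hb hy.le
      linarith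
  · intro x hx y hy hxy a b ha hb hab
    have hx' : 0 < x 0 := hx
    have hy' : 0 < y 0 := hy
    have hz : 0 < (a • x + b • y) 0 := by
      simp only [PiLp.add_apply, PiLp.smul_apply, smul_eq_mul]
      positivity
    simp only [f_pos hx', f_pos hy', f_pos hz, EReal.toReal_coe, smul_eq_mul]
    unfold F
    rw [q_mid hab]
    have hlog := strictConcaveOn_log_Ioi.concaveOn.2 hx' hy' ha.le hb.le hab
    simp only [smul_eq_mul] at hlog
    have e : (a • x + b • y) 0 = a * x 0 + b * y 0 := by simp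
    rw [e]
    by_cases h0 : x 0 = y 0
    · have : ∃ i : Fin (m + 1), x i.succ ≠ y i.succ := by
        by_contra hcon
        push Not at hcon
        apply hxy
        ext i
        refine Fin.cases h0 (fun i => hcon i) i
      obtain ⟨i, hi⟩ := this
      have hpos : 0 < ∑ i : Fin (m + 1), a * b * (x i.succ - y i.succ) ^ 2 / 2 := by
        refine Finset.sum_pos' (fun j _ => by positivity) ⟨i, Finset.mem_univ _, ?_⟩
        have : 0 < (x i.succ - y i.succ) ^ 2 := by
          have : x i.succ - y i.succ ≠ 0 := sub_ne_zero.2 hi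
          positivity
        positivity
      linarith
    · have hlog' := strictConcaveOn_log_Ioi.2 hx' hy' h0 ha hb hab
      simp only [smul_eq_mul] at hlog'
      have hpos : 0 ≤ ∑ i : Fin (m + 1), a * b * (x i.succ - y i.succ) ^ 2 / 2 :=
        Finset.sum_nonneg fun j _ => by positivity
      linarith

lemma frontier_dom {x : EuclideanSpace ℝ (Fin (m + 2))} (hx : x ∈ frontier (dom (f (m := m)))) :
    x 0 = 0 := by
  rw [frontier, open_dom.interior_eq] at hx
  obtain ⟨h1, h2⟩ := hx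
  rw [dom_f] at h1 h2
  have h3 : 0 ≤ x 0 := by
    have hcl : IsClosed {x : EuclideanSpace ℝ (Fin (m + 2)) | 0 ≤ x 0} :=
      isClosed_le continuous_const (cont_coord 0)
    have hsub : {x : EuclideanSpace ℝ (Fin (m + 2)) | 0 < x 0} ⊆ {x | 0 ≤ x 0} :=
      fun y hy => le_of_lt (show (0:ℝ) < y 0 from hy)
    exact closure_minimal hsub hcl h1
  exact le_antisymm (not_lt.1 h2) h3

lemma legendre_f : IsLegendre (f (m := m)) where
  ne_bot x := by
    unfold f
    split_ifs
    · exact EReal.coe_ne_bot _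
    · simp
  lsc := epi_closed
  convex := epi_convex
  nonempty := by
    rw [int_dom]
    exact ⟨EuclideanSpace.single 0 1, by simp⟩
  diff x hx := by
    rw [int_dom] at hx
    exact (hasf hx).differentiableAt
  steep u x hu hx hux := by
    have h0 := frontier_dom hx
    have hu' : ∀ k, 0 < u k 0 := fun k => by
      have := hu k
      rw [int_dom] at this
      exact this
    have h1 : Tendsto (fun k => u k 0) atTop (𝓝[>] 0) := by
      refine tendsto_nhdsWithin_iff.2 ⟨?_, Eventually.of_forall hu'⟩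
      have := ((cont_coord (0 : Fin (m + 2))).tendsto x).comp hux
      rwa [h0] at this
    have h2 : Tendsto (fun k => (u k 0)⁻¹) atTop atTop := h1.inv_tendsto_nhdsGT_zero
    refine tendsto_atTop_mono (fun k => ?_) h2
    rw [fderiv_f (hu' k)]
    have h3 := (dF (u k)).le_opNorm (EuclideanSpace.single (0 : Fin (m + 2)) 1)
    rw [dF_apply] at h3
    have h4 : ∀ i : Fin (m + 1), (EuclideanSpace.single (0 : Fin (m + 2)) (1 : ℝ)) i.succ = 0 := by
      intro i
      simp [Fin.succ_ne_zero]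
    simp only [h4, mul_zero, Finset.sum_const_zero, add_zero] at h3
    have h5 : (EuclideanSpace.single (0 : Fin (m + 2)) (1 : ℝ)) 0 = 1 := by simp
    rw [h5, mul_one, norm_neg, Real.norm_eq_abs, abs_of_pos (inv_pos.2 (hu' k))] at h3
    simpa using h3
  strict S hS hS' := by
    refine F_strict.subset (fun x hx => ?_) hS
    have := (hS' x hx).1
    rwa [dom_f] at this

lemma not_supercoercive_f : ¬ Supercoercive (f (m := m)) := by
  intro h
  unfold Supercoercive at h
  have hu : Tendsto (fun k : ℕ => EuclideanSpace.single (0 : Fin (m + 2)) ((k : ℝ) + 1)) atTop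
      (Bornology.cobounded _) := by
    rw [← tendsto_norm_atTop_iff_cobounded]
    have : (fun k : ℕ => ‖EuclideanSpace.single (0 : Fin (m + 2)) ((k : ℝ) + 1)‖) =
        fun k : ℕ => (k : ℝ) + 1 := by
      funext k
      rw [PiLp.norm_single, Real.norm_eq_abs, abs_of_pos (by positivity)]
    rw [this]
    exact tendsto_atTop_add_const_right _ _ tendsto_natCast_atTop_atTop
  have h1 := h.comp hu
  have h2 : ∀ᶠ k : ℕ in atTop, (0 : EReal) < f (EuclideanSpace.single (0 : Fin (m + 2))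
      ((k : ℝ) + 1)) / ((‖EuclideanSpace.single (0 : Fin (m + 2)) ((k : ℝ) + 1)‖ : ℝ) : EReal) :=
    h1.eventually (lt_mem_nhds (by simp))
  obtain ⟨k, hk⟩ := h2.exists
  have h3 : (0 : ℝ) < (EuclideanSpace.single (0 : Fin (m + 2)) ((k : ℝ) + 1)) 0 := by
    simp
    positivity
  rw [f_pos h3, ← EReal.coe_div, ← EReal.coe_zero, EReal.coe_lt_coe_iff] at hk
  have h4 : F (EuclideanSpace.single (0 : Fin (m + 2)) ((k : ℝ) + 1)) ≤ 0 := by
    unfold F q
    have h5 : ∀ i : Fin (m + 1), (EuclideanSpace.single (0 : Fin (m + 2)) ((k : ℝ) + 1)) i.succ = 0 := by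
      intro i
      simp [Fin.succ_ne_zero]
    simp only [h5]
    have h6 : (EuclideanSpace.single (0 : Fin (m + 2)) ((k : ℝ) + 1)) 0 = (k : ℝ) + 1 := by simp
    rw [h6]
    have h7 : 0 ≤ Real.log ((k : ℝ) + 1) := Real.log_nonneg (by linarith [(Nat.cast_nonneg k : (0:ℝ) ≤ k)])
    simp
    exact h7
  have := div_nonpos_of_nonpos_of_nonneg h4 (norm_nonneg (EuclideanSpace.single (0 : Fin (m + 2)) ((k : ℝ) + 1)))
  linarith

lemma C_sub : (C (m := m)) ⊆ interior (dom f) := by
  rw [int_dom]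
  exact fun x hx => hx.1

/-- the point `(t, s, 0, …, 0)` -/
noncomputable def pt (t s : ℝ) : EuclideanSpace ℝ (Fin (m + 2)) :=
  EuclideanSpace.single 0 t + EuclideanSpace.single 1 s

lemma pt0 (t s : ℝ) : (pt (m := m) t s) 0 = t := by simp [pt]

lemma pt1 (t s : ℝ) : (pt (m := m) t s) 1 = s := by simp [pt]

lemma C_nonconvex : ¬ Convex ℝ (C (m := m)) := by
  intro h
  have h1 : pt (Real.cosh 1) 2 ∈ C (m := m) := by
    refine ⟨?_, ?_⟩
    · rw [pt0]; exact Real.cosh_pos _
    · rw [pt0, pt1]; norm_num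
  have h2 : pt (Real.cosh 1) (-2) ∈ C (m := m) := by
    refine ⟨?_, ?_⟩
    · rw [pt0]; exact Real.cosh_pos _
    · rw [pt0, pt1, neg_div, Real.cosh_neg]; norm_num
  have h3 := h h1 h2 (by norm_num : (0 : ℝ) ≤ 1 / 2) (by norm_num : (0 : ℝ) ≤ 1 / 2) (by norm_num)
  have h4 := h3.2
  simp only [PiLp.add_apply, PiLp.smul_apply, smul_eq_mul, pt0, pt1] at h4
  norm_num at h4
  have h5 : 1 < Real.cosh 1 := Real.one_lt_cosh.2 one_ne_zero
  linarith

/-- the inequality `cosh a * cosh b ≤ cosh ((a+b)/2) ^ 2 * exp ((a-b)^2/4)` -/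
lemma cosh_mul_le (a b : ℝ) :
    Real.cosh a * Real.cosh b ≤ Real.cosh ((a + b) / 2) ^ 2 * Real.exp ((a - b) ^ 2 / 4) := by
  have hX : 1 ≤ Real.cosh (a + b) := Real.one_le_cosh _
  have hY : 1 ≤ Real.cosh (a - b) := Real.one_le_cosh _
  have e1 : Real.cosh a * Real.cosh b = (Real.cosh (a + b) + Real.cosh (a - b)) / 2 := by
    rw [Real.cosh_add, Real.cosh_sub]; ring
  have e2 : Real.cosh ((a + b) / 2) ^ 2 = (1 + Real.cosh (a + b)) / 2 := by
    have := Real.cosh_sq ((a + b) / 2)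
    have h2 := Real.cosh_two_mul ((a + b) / 2)
    rw [show 2 * ((a + b) / 2) = a + b by ring] at h2
    linarith
  have e3 : Real.cosh ((a - b) / 2) ^ 2 = (1 + Real.cosh (a - b)) / 2 := by
    have := Real.cosh_sq ((a - b) / 2)
    have h2 := Real.cosh_two_mul ((a - b) / 2)
    rw [show 2 * ((a - b) / 2) = a - b by ring] at h2
    linarith
  have h4 : (1 + Real.cosh (a - b)) / 2 ≤ Real.exp ((a - b) ^ 2 / 4) := by
    rw [← e3]
    have := Real.cosh_le_exp_half_sq ((a - b) / 2)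
    calc Real.cosh ((a - b) / 2) ^ 2 ≤ (Real.exp (((a - b) / 2) ^ 2 / 2)) ^ 2 :=
          pow_le_pow_left₀ (Real.cosh_pos _).le this 2
      _ = Real.exp ((a - b) ^ 2 / 4) := by
          rw [← Real.exp_nat_mul]
          congr 1
          push_cast
          ring
  rw [e1, e2]
  calc (Real.cosh (a + b) + Real.cosh (a - b)) / 2
      ≤ (1 + Real.cosh (a + b)) / 2 * ((1 + Real.cosh (a - b)) / 2) := by nlinarith
    _ ≤ (1 + Real.cosh (a + b)) / 2 * Real.exp ((a - b) ^ 2 / 4) := by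
        apply mul_le_mul_of_nonneg_left h4
        linarith

lemma log_cosh_le (a b : ℝ) :
    Real.log (Real.cosh a) + Real.log (Real.cosh b) ≤
      2 * Real.log (Real.cosh ((a + b) / 2)) + (a - b) ^ 2 / 4 := by
  have h := Real.log_le_log (by have := Real.cosh_pos a; have := Real.cosh_pos b; positivity)
    (cosh_mul_le a b)
  have hc := Real.cosh_pos ((a + b) / 2)
  rw [Real.log_mul (Real.cosh_pos a).ne' (Real.cosh_pos b).ne',
    Real.log_mul (by positivity) (Real.exp_pos _).ne', Real.log_pow, Real.log_exp] at h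
  push_cast at h
  exact h

lemma exp_mid (a b : ℝ) : 2 * Real.exp ((a + b) / 2) ≤ Real.exp a + Real.exp b := by
  have h := convexOn_exp.2 (mem_univ a) (mem_univ b) (by norm_num : (0 : ℝ) ≤ 1 / 2)
    (by norm_num : (0 : ℝ) ≤ 1 / 2) (by norm_num)
  simp only [smul_eq_mul] at h
  rw [show (a + b) / 2 = 1 / 2 * a + 1 / 2 * b by ring]
  linarith

lemma exp_mid_lt {a b : ℝ} (hab : a ≠ b) : 2 * Real.exp ((a + b) / 2) < Real.exp a + Real.exp b := by
  have h := strictConvexOn_exp.2 (mem_univ a) (mem_univ b) hab (by norm_num : (0 : ℝ) < 1 / 2)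
    (by norm_num : (0 : ℝ) < 1 / 2) (by norm_num)
  simp only [smul_eq_mul] at h
  rw [show (a + b) / 2 = 1 / 2 * a + 1 / 2 * b by ring]
  linarith

/-- the midpoint in the coordinates `log (x₀ / cosh (x₁ / 2)), x₁, …` -/
noncomputable def mid (p p' : EuclideanSpace ℝ (Fin (m + 2))) : EuclideanSpace ℝ (Fin (m + 2)) :=
  WithLp.toLp 2 (Fin.cons (Real.exp ((Real.log (p 0 / Real.cosh (p 1 / 2)) +
    Real.log (p' 0 / Real.cosh (p' 1 / 2))) / 2) * Real.cosh ((p 1 / 2 + p' 1 / 2) / 2))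
    (fun i : Fin (m + 1) => (p i.succ + p' i.succ) / 2))

lemma mid_zero (p p' : EuclideanSpace ℝ (Fin (m + 2))) :
    (mid p p') 0 = Real.exp ((Real.log (p 0 / Real.cosh (p 1 / 2)) +
    Real.log (p' 0 / Real.cosh (p' 1 / 2))) / 2) * Real.cosh ((p 1 / 2 + p' 1 / 2) / 2) := rfl

lemma mid_succ (p p' : EuclideanSpace ℝ (Fin (m + 2))) (i : Fin (m + 1)) :
    (mid p p') i.succ = (p i.succ + p' i.succ) / 2 := rfl

lemma mid_one (p p' : EuclideanSpace ℝ (Fin (m + 2))) :
    (mid p p') 1 = (p 1 + p' 1) / 2 := mid_succ p p' 0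

lemma mid_mem {p p' : EuclideanSpace ℝ (Fin (m + 2))} (hp : p ∈ C (m := m)) (hp' : p' ∈ C (m := m)) :
    mid p p' ∈ C (m := m) := by
  have h1 : Real.log (p 0 / Real.cosh (p 1 / 2)) ≤ 0 :=
    Real.log_nonpos (div_nonneg hp.1.le (Real.cosh_pos _).le) ((div_le_one (Real.cosh_pos _)).2 hp.2)
  have h2 : Real.log (p' 0 / Real.cosh (p' 1 / 2)) ≤ 0 :=
    Real.log_nonpos (div_nonneg hp'.1.le (Real.cosh_pos _).le)
      ((div_le_one (Real.cosh_pos _)).2 hp'.2)
  have hc := Real.cosh_pos ((p 1 / 2 + p' 1 / 2) / 2)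
  refine ⟨?_, ?_⟩
  · rw [mid_zero]
    exact mul_pos (Real.exp_pos _) hc
  · rw [mid_zero, mid_one, show (p 1 + p' 1) / 2 / 2 = (p 1 / 2 + p' 1 / 2) / 2 by ring]
    have : Real.exp ((Real.log (p 0 / Real.cosh (p 1 / 2)) +
        Real.log (p' 0 / Real.cosh (p' 1 / 2))) / 2) ≤ 1 := Real.exp_le_one_iff.2 (by linarith)
    nlinarith

lemma mid_lt {p p' y : EuclideanSpace ℝ (Fin (m + 2))} (hp : p ∈ C (m := m))
    (hp' : p' ∈ C (m := m)) (hy : 0 < y 0) (hne : p ≠ p') :
    2 * bregman f (mid p p') y < bregman f p y + bregman f p' y := by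
  have hm := mid_mem hp hp'
  rw [bregman_f hm.1 hy, bregman_f hp.1 hy, bregman_f hp'.1 hy]
  set u := Real.log (p 0 / Real.cosh (p 1 / 2)) with hu
  set u' := Real.log (p' 0 / Real.cosh (p' 1 / 2)) with hu'
  have hca := Real.cosh_pos (p 1 / 2)
  have hcb := Real.cosh_pos (p' 1 / 2)
  have hcm := Real.cosh_pos ((p 1 / 2 + p' 1 / 2) / 2)
  have e1 : p 0 = Real.exp u * Real.cosh (p 1 / 2) := by
    rw [hu, Real.exp_log (div_pos hp.1 hca)]
    field_simp
  have e2 : p' 0 = Real.exp u' * Real.cosh (p' 1 / 2) := by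
    rw [hu', Real.exp_log (div_pos hp'.1 hcb)]
    field_simp
  -- logarithms
  have l1 : Real.log (p 0) = u + Real.log (Real.cosh (p 1 / 2)) := by
    rw [e1, Real.log_mul (Real.exp_pos _).ne' hca.ne', Real.log_exp]
  have l2 : Real.log (p' 0) = u' + Real.log (Real.cosh (p' 1 / 2)) := by
    rw [e2, Real.log_mul (Real.exp_pos _).ne' hcb.ne', Real.log_exp]
  have l3 : Real.log ((mid p p') 0) =
      (u + u') / 2 + Real.log (Real.cosh ((p 1 / 2 + p' 1 / 2) / 2)) := by
    rw [mid_zero, Real.log_mul (Real.exp_pos _).ne' hcm.ne', Real.log_exp]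
  have l4 := log_cosh_le (p 1 / 2) (p' 1 / 2)
  -- exponentials
  have x0 : 2 * (mid p p') 0 = Real.exp (((u + p 1 / 2) + (u' + p' 1 / 2)) / 2) +
      Real.exp (((u - p 1 / 2) + (u' - p' 1 / 2)) / 2) := by
    rw [mid_zero, ← hu, ← hu', Real.cosh_eq]
    rw [show ((u + p 1 / 2) + (u' + p' 1 / 2)) / 2 = (u + u') / 2 + (p 1 / 2 + p' 1 / 2) / 2 by ring,
      show ((u - p 1 / 2) + (u' - p' 1 / 2)) / 2 = (u + u') / 2 + -((p 1 / 2 + p' 1 / 2) / 2) by ring,
      Real.exp_add ((u + u') / 2), Real.exp_add ((u + u') / 2)]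
    ring
  have x1 : 2 * p 0 = Real.exp (u + p 1 / 2) + Real.exp (u - p 1 / 2) := by
    rw [e1, Real.cosh_eq, sub_eq_add_neg, Real.exp_add u, Real.exp_add u]
    ring
  have x2 : 2 * p' 0 = Real.exp (u' + p' 1 / 2) + Real.exp (u' - p' 1 / 2) := by
    rw [e2, Real.cosh_eq, sub_eq_add_neg, Real.exp_add u', Real.exp_add u']
    ring
  have x3 := exp_mid (u + p 1 / 2) (u' + p' 1 / 2)
  have x4 := exp_mid (u - p 1 / 2) (u' - p' 1 / 2)
  have x5 : 2 * (mid p p') 0 ≤ p 0 + p' 0 := by linarith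
  -- squares
  have s1 : ∀ i : Fin (m + 1), 2 * (((mid p p') i.succ - y i.succ) ^ 2 / 2) =
      (p i.succ - y i.succ) ^ 2 / 2 + (p' i.succ - y i.succ) ^ 2 / 2 -
        (p i.succ - p' i.succ) ^ 2 / 4 := by
    intro i
    rw [mid_succ]
    ring
  have s2 : 2 * ∑ i : Fin (m + 1), ((mid p p') i.succ - y i.succ) ^ 2 / 2 =
      ∑ i : Fin (m + 1), (p i.succ - y i.succ) ^ 2 / 2 +
        ∑ i : Fin (m + 1), (p' i.succ - y i.succ) ^ 2 / 2 -
        ∑ i : Fin (m + 1), (p i.succ - p' i.succ) ^ 2 / 4 := by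
    rw [Finset.mul_sum, ← Finset.sum_add_distrib, ← Finset.sum_sub_distrib]
    exact Finset.sum_congr rfl fun i _ => s1 i
  have s3 : (p 1 - p' 1) ^ 2 / 4 ≤ ∑ i : Fin (m + 1), (p i.succ - p' i.succ) ^ 2 / 4 := by
    have := Finset.single_le_sum (f := fun i : Fin (m + 1) => (p i.succ - p' i.succ) ^ 2 / 4)
      (fun i _ => by positivity) (Finset.mem_univ (0 : Fin (m + 1)))
    exact this
  have hy' : (mid p p') 0 / y 0 = (2 * (mid p p') 0) * (1 / (2 * y 0)) := by field_simp
  have hp0 : p 0 / y 0 = (2 * p 0) * (1 / (2 * y 0)) := by field_simp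
  have hp0' : p' 0 / y 0 = (2 * p' 0) * (1 / (2 * y 0)) := by field_simp
  have hyp : 0 < 1 / (2 * y 0) := by positivity
  rw [l3, l1, l2, hy', hp0, hp0']
  by_cases h1 : ∀ i : Fin (m + 1), p i.succ = p' i.succ
  · have h10 : p 1 = p' 1 := h1 0
    have h00 : p 0 ≠ p' 0 := by
      intro h
      apply hne
      ext i
      exact Fin.cases h h1 i
    have huu : u + p 1 / 2 ≠ u' + p' 1 / 2 := by
      intro h
      apply h00
      rw [e1, e2, ← h10]
      have : u = u' := by rw [h10] at h; linarith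
      rw [this]
    have x3' := exp_mid_lt huu
    have x5' : 2 * (mid p p') 0 < p 0 + p' 0 := by linarith
    have s4 : 0 ≤ ∑ i : Fin (m + 1), (p i.succ - p' i.succ) ^ 2 / 4 :=
      Finset.sum_nonneg fun i _ => by positivity
    have h6 : (p 1 / 2 - p' 1 / 2) ^ 2 / 4 = 0 := by rw [h10]; ring
    rw [h6] at l4
    have h7 : 2 * (mid p p') 0 * (1 / (2 * y 0)) < (p 0 + p' 0) * (1 / (2 * y 0)) :=
      mul_lt_mul_of_pos_right x5' hyp
    linarith
  · have h7 : 2 * (mid p p') 0 * (1 / (2 * y 0)) ≤ (p 0 + p' 0) * (1 / (2 * y 0)) :=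
      mul_le_mul_of_nonneg_right x5 hyp.le
    have h8 : (p 1 / 2 - p' 1 / 2) ^ 2 / 4 < ∑ i : Fin (m + 1), (p i.succ - p' i.succ) ^ 2 / 4 := by
      by_cases h10 : p 1 = p' 1
      · have : (p 1 / 2 - p' 1 / 2) ^ 2 / 4 = 0 := by rw [h10]; ring
        rw [this]
        push Not at h1
        obtain ⟨i, hi⟩ := h1
        refine Finset.sum_pos' (fun j _ => by positivity) ⟨i, Finset.mem_univ _, ?_⟩
        have : p i.succ - p' i.succ ≠ 0 := sub_ne_zero.2 hi
        positivity
      · refine lt_of_lt_of_le ?_ s3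
        have : p 1 - p' 1 ≠ 0 := sub_ne_zero.2 h10
        have : 0 < (p 1 - p' 1) ^ 2 := by positivity
        nlinarith
    linarith

lemma chebyshev_f : LeftChebyshev f (C (m := m)) := by
  intro y hy
  rw [int_dom] at hy
  have hy0 : 0 < y 0 := hy
  have hz : pt 1 0 ∈ C (m := m) := by
    refine ⟨?_, ?_⟩
    · rw [pt0]; exact one_pos
    · rw [pt0]; exact Real.one_le_cosh _
  set M := bregman f (pt 1 0) y with hM
  set R2 := (2 * (M + 1) * y 0) ^ 2 + (2 * ∑ i : Fin (m + 1), (y i.succ) ^ 2 + 4 * M) with hR2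
  set δ := Real.exp (-(M + 1)) * y 0 with hδ
  have hδ0 : 0 < δ := mul_pos (Real.exp_pos _) hy0
  set K : Set (EuclideanSpace ℝ (Fin (m + 2))) :=
    {x | δ ≤ x 0 ∧ x 0 ≤ Real.cosh (x 1 / 2)} ∩ Metric.closedBall 0 (Real.sqrt R2) with hK
  have hKc : IsCompact K := by
    refine (isCompact_closedBall _ _).inter_left ?_
    refine (isClosed_le continuous_const (cont_coord 0)).inter
      (isClosed_le (cont_coord 0) (Real.continuous_cosh.comp ((cont_coord 1).div_const 2)))
  -- points of small distance lie in K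
  have hmem : ∀ x ∈ C (m := m), bregman f x y ≤ M → x ∈ K := by
    intro x hx hxM
    rw [bregman_f hx.1 hy0] at hxM
    have hs : 0 < x 0 / y 0 := div_pos hx.1 hy0
    have hl : Real.log (x 0 / y 0) = Real.log (x 0) - Real.log (y 0) :=
      Real.log_div hx.1.ne' hy0.ne'
    have hl1 : Real.log (x 0 / y 0) ≤ x 0 / y 0 - 1 := Real.log_le_sub_one_of_pos hs
    have hl2 : Real.log (x 0 / y 0) ≤ x 0 / y 0 / 2 := by
      have h1 := Real.log_le_sub_one_of_pos (half_pos hs)
      rw [Real.log_div hs.ne' two_ne_zero] at h1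
      have h2 := Real.log_le_sub_one_of_pos (two_pos : (0 : ℝ) < 2)
      linarith
    have hS : 0 ≤ ∑ i : Fin (m + 1), (x i.succ - y i.succ) ^ 2 / 2 :=
      Finset.sum_nonneg fun i _ => by positivity
    have hM0 : 0 ≤ M := by linarith
    have h3 : ∑ i : Fin (m + 1), (x i.succ - y i.succ) ^ 2 / 2 ≤ M := by linarith
    have h4 : x 0 / y 0 ≤ 2 * (M + 1) := by linarith
    have h5 : x 0 ≤ 2 * (M + 1) * y 0 := (div_le_iff₀ hy0).1 h4
    have h6 : -(M + 1) ≤ Real.log (x 0 / y 0) := by linarith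
    have h7 : Real.exp (-(M + 1)) ≤ x 0 / y 0 := by
      rwa [← Real.le_log_iff_exp_le hs]
    have h8 : δ ≤ x 0 := (le_div_iff₀ hy0).1 h7
    refine ⟨⟨h8, hx.2⟩, ?_⟩
    rw [mem_closedBall_zero_iff]
    refine Real.le_sqrt_of_sq_le ?_
    rw [EuclideanSpace.norm_sq_eq, Fin.sum_univ_succ]
    simp only [Real.norm_eq_abs, sq_abs]
    have h9 : ∑ i : Fin (m + 1), (x i.succ) ^ 2 ≤
        2 * ∑ i : Fin (m + 1), (y i.succ) ^ 2 + 4 * ∑ i : Fin (m + 1), (x i.succ - y i.succ) ^ 2 / 2 := by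
      rw [Finset.mul_sum, Finset.mul_sum, ← Finset.sum_add_distrib]
      refine Finset.sum_le_sum fun i _ => ?_
      nlinarith [sq_nonneg (x i.succ - 2 * y i.succ)]
    have h10 : (x 0) ^ 2 ≤ (2 * (M + 1) * y 0) ^ 2 := pow_le_pow_left₀ hx.1.le h5 2
    rw [hR2]
    linarith
  have hcont : ContinuousOn (fun x => bregman f x y) K := by
    have h1 : ∀ x ∈ K, bregman f x y = x 0 / y 0 - 1 - Real.log (x 0) + Real.log (y 0) +
      ∑ i : Fin (m + 1), (x i.succ - y i.succ) ^ 2 / 2 := fun x hx =>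
        bregman_f (hδ0.trans_le hx.1.1) hy0
    refine ContinuousOn.congr ?_ h1
    have h2 : ContinuousOn (fun x : EuclideanSpace ℝ (Fin (m + 2)) => Real.log (x 0)) K :=
      ContinuousOn.log (cont_coord 0).continuousOn fun x hx => (hδ0.trans_le hx.1.1).ne'
    have h3 : Continuous fun x : EuclideanSpace ℝ (Fin (m + 2)) =>
        ∑ i : Fin (m + 1), (x i.succ - y i.succ) ^ 2 / 2 := by fun_prop
    have h4 : Continuous fun x : EuclideanSpace ℝ (Fin (m + 2)) => x 0 / y 0 - 1 := by fun_prop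
    exact ((h4.continuousOn.sub h2).add continuousOn_const).add h3.continuousOn
  have hzK : pt 1 0 ∈ K := hmem _ hz le_rfl
  obtain ⟨x, hxK, hx⟩ := hKc.exists_isMinOn ⟨_, hzK⟩ hcont
  have hxC : x ∈ C (m := m) := ⟨hδ0.trans_le hxK.1.1, hxK.1.2⟩
  have hxmin : ∀ z ∈ C (m := m), bregman f x y ≤ bregman f z y := by
    intro z hzC
    by_cases h : bregman f z y ≤ M
    · exact hx (hmem z hzC h)
    · exact le_trans (hx hzK) (not_le.1 h).le
  refine ⟨x, ⟨hxC, hxmin⟩, ?_⟩
  rintro x' ⟨hx'C, hx'⟩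
  by_contra hne
  have h1 := mid_lt hx'C hxC hy0 hne
  have h2 := hxmin _ (mid_mem hx'C hxC)
  have h3 := hx' _ (mid_mem hx'C hxC)
  linarith

end Example

/-- For every `n ≥ 2` there are a Legendre function on `ℝ^n` that is not supercoercive and a left
Chebyshev set `C ⊆ int dom f` that is not convex. -/
theorem result : ∀ n : ℕ, 2 ≤ n → ∃ (f : EuclideanSpace ℝ (Fin n) → EReal)
    (C : Set (EuclideanSpace ℝ (Fin n))), IsLegendre f ∧ ¬ Supercoercive f ∧ C.Nonempty ∧
      C ⊆ interior (dom f) ∧ LeftChebyshev f C ∧ ¬ Convex ℝ C := by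
  intro n hn
  obtain ⟨m, rfl⟩ : ∃ m, n = m + 2 := ⟨n - 2, by omega⟩
  refine ⟨f, C, legendre_f, not_supercoercive_f, ⟨pt 1 0, ?_, ?_⟩, C_sub, chebyshev_f, C_nonconvex⟩
  · rw [pt0]; exact one_pos
  · rw [pt0]; exact Real.one_le_cosh _

end Pool.Agent.Results.MP_bd7f44_an.NonconvexChebyshev
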